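import Pool.Agent.Y538.Fun.Final
import Pool.Agent.W956.KF.IntMat

set_option autoImplicit false

/-!
# Any `ε n ^ 2` independent functions of a matrix product are as hard as the product

Definitions: `Pairs` is in `Pool.Agent.Y538.Net.Defs`; `mm`, `Free`, `IsNetF`, `SolvesF` are in
`Pool.Agent.Y538.Fun.Defs`; `omega` (the exponent of matrix multiplication over `ℂ`) in
`Pool.Agent.H515R2.MMR.Rank`; `Circuit` in `Pool.Agent.H522R2.Circuit`; `ComputesMM`, `sizeMM`,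
`Superlinear` in `Pool.Agent.W956.KF.Defs`.
-/

namespace Pool.Agent.Results.MP_e72dc0_lc.FunctionsOfTheProduct

open Filter Topology Pool.Agent.Y538.Net Pool.Agent.Y538.Fun Pool.Agent.H515R2.MMR
open Pool.Agent.W956.KF (RankLE trank sizeMM Superlinear)

/-- The two definitions of the rank of the tensor of matrix multiplication agree. -/
theorem rankLE_iff (n r : ℕ) : RankLE ℂ n n n r ↔ HasRank n r := by
  constructor
  · rintro ⟨U, V, W, h⟩
    refine ⟨fun t i j => U t i j, fun t j k => V t j k, fun t k i => W t i k, ?_⟩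
    intro i j j' k k' l
    rw [h i l j j' k k']
    by_cases h1 : i = l <;> by_cases h2 : j = j' <;> by_cases h3 : k = k' <;>
      simp [h1, h2, h3, eq_comm]
  · rintro ⟨a, b, c, h⟩
    refine ⟨fun t => Matrix.of fun i j => a t i j, fun t => Matrix.of fun j k => b t j k,
      fun t => Matrix.of fun i k => c t k i, ?_⟩
    intro i i' j j' k k'
    have h1 := h i j j' k k' i'
    simp only [Matrix.of_apply]
    rw [← h1]
    by_cases h1 : i = i' <;> by_cases h2 : j = j' <;> by_cases h3 : k = k' <;>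
      simp [h1, h2, h3, eq_comm]

theorem trank_eq (n : ℕ) : trank ℂ n n n = rk n := by
  unfold trank rk
  congr 1
  ext r
  exact rankLE_iff n r

theorem omega_eq : Pool.Agent.W956.KF.omega ℂ = omega := by
  unfold Pool.Agent.W956.KF.omega Pool.Agent.W956.KF.growth omega
  simp only [trank_eq]

/-- The question is whether `ω > 2`. -/
theorem superlinear_iff_two_lt : Superlinear (sizeMM ℂ) ↔ 2 < omega := by
  obtain ⟨B, -, -, -, -, -, -, h, -⟩ := Pool.Agent.W956.KF.part_three ℂ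
  rw [h, ← Pool.Agent.W956.KF.omega_eq, omega_eq]

/-- All the entries of the product as `n * n` functions. -/
noncomputable def flat (n : ℕ) : (Fin n → Fin n → ℝ) →L[ℝ] (Fin (n * n) → ℝ) :=
  LinearMap.toContinuousLinearMap
    { toFun := fun C o => C (finProdFinEquiv.symm o).1 (finProdFinEquiv.symm o).2
      map_add' := fun _ _ => rfl
      map_smul' := fun _ _ => rfl }

theorem flat_surjective (n : ℕ) : Function.Surjective (flat n) := by
  intro y
  refine ⟨fun i j => y (finProdFinEquiv (i, j)), ?_⟩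
  funext o
  show y (finProdFinEquiv ((finProdFinEquiv.symm o).1, (finProdFinEquiv.symm o).2)) = y o
  rw [Prod.mk.eta, Equiv.apply_symm_apply]

theorem sq_rpow {m : ℕ} (hm : 1 ≤ m) (α : ℝ) : ((m : ℝ) ^ 2) ^ α = (m : ℝ) ^ (2 * α) := by
  have hm0 : (0 : ℝ) < m := by exact_mod_cast hm
  rw [← Real.rpow_natCast (m : ℝ) 2, ← Real.rpow_mul hm0.le]
  norm_num

theorem lower_large {a b : ℕ} (ha : 2 ≤ a) (hb : 1 ≤ b) {ε : ℝ} (hε : 0 < ε) :
    ∃ c : ℝ, 0 < c ∧ ∃ m₀ : ℕ, ∀ m : ℕ, m₀ ≤ m → ∀ (d L : ℕ)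
      (Φ : (Fin m → Fin m → ℝ) → Fin d → ℝ), ε * (m : ℝ) ^ 2 ≤ d → SolvesF ℝ m a b L d Φ →
        c * (m : ℝ) ^ omega ≤ L := by
  have hω : 2 ≤ omega := Pool.Agent.Y538.Par.two_le_omega
  set K : ℝ := ((4 * (a * min a b) : ℕ) : ℝ) ^ (omega / 3) with hK
  have hK0 : 0 < K := by
    have h1 : 0 < 4 * (a * min a b) :=
      Nat.mul_pos (by norm_num) (Nat.mul_pos (by omega) (by omega))
    have h2 : (0 : ℝ) < ((4 * (a * min a b) : ℕ) : ℝ) := by exact_mod_cast h1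
    exact Real.rpow_pos_of_pos h2 _
  obtain ⟨m₁, hm₁⟩ := exists_nat_ge (2 / ε)
  refine ⟨(ε / 2) ^ (omega / 3) / (2 * K), by positivity, max m₁ 1, ?_⟩
  intro m hm d L Φ hd h
  have hm1 : 1 ≤ m := (le_max_right _ _).trans hm
  have hm2 : (2 / ε : ℝ) ≤ m := hm₁.trans (by exact_mod_cast (le_max_left _ _).trans hm)
  have hm0 : (0 : ℝ) < m := by exact_mod_cast hm1
  have h1 : (m : ℝ) ≤ ε / 2 * (m : ℝ) ^ 2 := by
    rw [div_le_iff₀ hε] at hm2
    nlinarith
  have h2 : ε / 2 * (m : ℝ) ^ 2 ≤ ((d - m : ℕ) : ℝ) := by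
    have h3 : (m : ℝ) ≤ d := by nlinarith
    have h4 : m ≤ d := by exact_mod_cast h3
    rw [Nat.cast_sub h4]
    linarith
  have h5 := lowerF (𝕜 := ℝ) Complex.ofRealHom h
  have h6 : (ε / 2) ^ (omega / 3) * (m : ℝ) ^ omega ≤
      ((m * (d - m) : ℕ) : ℝ) ^ (omega / 3) := by
    have e : (ε / 2) ^ (omega / 3) * (m : ℝ) ^ omega =
        (m * (ε / 2 * (m : ℝ) ^ 2)) ^ (omega / 3) := by
      have e1 : (m : ℝ) * (ε / 2 * (m : ℝ) ^ 2) = ε / 2 * (m : ℝ) ^ (3 : ℝ) := by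
        rw [show (3 : ℝ) = ((3 : ℕ) : ℝ) by norm_num, Real.rpow_natCast]
        ring
      rw [e1, Real.mul_rpow (by positivity) (by positivity), ← Real.rpow_mul hm0.le]
      congr 2
      ring
    rw [e]
    refine Real.rpow_le_rpow (by positivity) ?_ (by positivity)
    push_cast
    gcongr
  rw [div_mul_eq_mul_div, div_le_iff₀ (by positivity)]
  calc (ε / 2) ^ (omega / 3) * (m : ℝ) ^ omega ≤ 2 * L * K := h6.trans h5
    _ = L * (2 * K) := by ring

theorem uniform_iff {a b : ℕ} (ha : 2 ≤ a) (hb : 1 ≤ b) {ε : ℝ} (hε : 0 < ε) (hε1 : ε ≤ 1) :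
    Superlinear (sizeMM ℂ) ↔ ∃ α : ℝ, 1 < α ∧ ∃ c : ℝ, 0 < c ∧ ∃ m₀ : ℕ, ∀ m : ℕ, m₀ ≤ m →
      ∀ (d L : ℕ) (Φ : (Fin m → Fin m → ℝ) → Fin d → ℝ), ε * (m : ℝ) ^ 2 ≤ d →
        SolvesF ℝ m a b L d Φ → c * (((m : ℝ) ^ 2) ^ α) ≤ L := by
  rw [superlinear_iff_two_lt]
  constructor
  · intro h
    obtain ⟨c, hc, m₀, hm₀⟩ := lower_large ha hb hε
    refine ⟨omega / 2, by linarith, c, hc, max m₀ 1, fun m hm d L Φ hd hS => ?_⟩
    rw [sq_rpow ((le_max_right _ _).trans hm), mul_div_cancel₀ _ (two_ne_zero)]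
    exact hm₀ m ((le_max_left _ _).trans hm) d L Φ hd hS
  · rintro ⟨α, hα, c, hc, m₀, h⟩
    have h2 : 2 * α ≤ omega := by
      refine le_csInf omega_set_nonempty ?_
      rintro τ ⟨C, hC⟩
      by_contra hcon
      push Not at hcon
      have t1 := (tendsto_rpow_atTop (y := 2 * α - τ) (by linarith)).comp
        (tendsto_natCast_atTop_atTop (R := ℝ))
      obtain ⟨m, g1, g2, g3⟩ := ((t1.eventually (eventually_gt_atTop (4 * C / c))).and
        ((eventually_ge_atTop m₀).and (eventually_ge_atTop 1))).exists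
      simp only [Function.comp] at g1
      have hm0 : (0 : ℝ) < m := by exact_mod_cast g3
      have h3 := h m g2 (m * m) (4 * rk m) (flat m) (by push_cast; nlinarith [sq_nonneg (m : ℝ)])
        (solvesF_of_solves (solves_of_hasRank ha hb (hasRank_rk m)) (flat m) (flat_surjective m))
      rw [sq_rpow g3] at h3
      have h4 := hC m
      have h5 : c * (m : ℝ) ^ (2 * α) ≤ 4 * C * (m : ℝ) ^ τ := by
        push_cast at h3
        linarith
      have e : (m : ℝ) ^ (2 * α) = (m : ℝ) ^ (2 * α - τ) * (m : ℝ) ^ τ := by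
        rw [← Real.rpow_add hm0]; congr 1; ring
      rw [e] at h5
      have h6 : 0 < (m : ℝ) ^ τ := Real.rpow_pos_of_pos hm0 _
      rw [div_lt_iff₀ hc] at g1
      have h7 := mul_lt_mul_of_pos_right g1 h6
      linarith
    linarith

/-- A network gets a pair `(A, B)` of `n × n` matrices over `𝕜 = ℝ` or `ℂ`. Each of its `L` gates is
an arbitrary map `𝕜 ^ a → 𝕜 ^ b`, twice continuously differentiable at the values that occur; linear
operations and all twice continuously differentiable functions of `A` alone and of `B` alone are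
free. `SolvesF 𝕜 n a b L d Φ`: there are countably many networks with `L` gates such that the pairs
`(A, B)` for which `Φ : 𝕜 ^ (n × n) → 𝕜 ^ d` is twice continuously differentiable with surjective
derivative at `A B` and for which at least one of the networks gives `Φ (A B)` are not meagre.
`ω` is the exponent of matrix multiplication.

(1) Then `(n (d - n)) ^ (ω / 3) ≤ 2 L (4 a min (a, b)) ^ (ω / 3)`.
(2) If for infinitely many `n` some `Φ` with `d ≥ ε n ^ δ` values, `δ > 1`, is computed with at most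
`D n ^ τ` gates then `(1 + δ) ω / 3 ≤ τ`; so `τ ≥ ω` if `δ = 2`.
(3) Let `a ≥ 2`, `b ≥ 1`. For any sequence of surjective linear maps `ℓ n` from the `n × n` matrices to
`ℝ ^ (d n)`, with `d n ≥ ε n ^ 2` for large `n`, the exponent of the number of gates for `ℓ n (A B)`
is exactly `ω`.
(4) Let `a ≥ 2`, `b ≥ 1`, `0 < ε ≤ 1`. The lower bound asked for in the question, over `ℂ`,
`S(MM_m) ≥ c (m ^ 2) ^ α` for some `α > 1`, is equivalent to the existence of one `α > 1` such that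
the computation of `Φ (A B)` takes at least `c (m ^ 2) ^ α` gates for all large `m` and all `Φ` with
at least `ε m ^ 2` values. -/
theorem result :
    (∀ (𝕜 : Type) [RCLike 𝕜], (𝕜 →+* ℂ) → ∀ (n a b d L : ℕ)
      (Φ : (Fin n → Fin n → 𝕜) → Fin d → 𝕜), SolvesF 𝕜 n a b L d Φ →
        ((n * (d - n) : ℕ) : ℝ) ^ (omega / 3) ≤
          2 * L * ((4 * (a * min a b) : ℕ) : ℝ) ^ (omega / 3)) ∧
    (∀ (𝕜 : Type) [RCLike 𝕜], (𝕜 →+* ℂ) → ∀ (a b : ℕ) (ε δ τ D : ℝ), 0 < ε → 1 < δ →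
      (∃ᶠ n : ℕ in atTop, ∃ (d L : ℕ) (Φ : (Fin n → Fin n → 𝕜) → Fin d → 𝕜),
        SolvesF 𝕜 n a b L d Φ ∧ ε * (n : ℝ) ^ δ ≤ d ∧ (L : ℝ) ≤ D * (n : ℝ) ^ τ) →
      (1 + δ) * omega / 3 ≤ τ) ∧
    (∀ a b : ℕ, 2 ≤ a → 1 ≤ b → ∀ ε : ℝ, 0 < ε → ∀ d : ℕ → ℕ,
      (∀ᶠ n : ℕ in atTop, ε * (n : ℝ) ^ 2 ≤ d n) →
      ∀ ℓ : (n : ℕ) → (Fin n → Fin n → ℝ) →L[ℝ] (Fin (d n) → ℝ),
        (∀ n, Function.Surjective (ℓ n)) →
        sInf {τ : ℝ | ∃ C : ℝ, ∀ n : ℕ, ∃ L : ℕ, SolvesF ℝ n a b L (d n) (ℓ n) ∧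
          (L : ℝ) ≤ C * (n : ℝ) ^ τ} = omega) ∧
    (∀ a b : ℕ, 2 ≤ a → 1 ≤ b → ∀ ε : ℝ, 0 < ε → ε ≤ 1 →
      (Superlinear (sizeMM ℂ) ↔ ∃ α : ℝ, 1 < α ∧ ∃ c : ℝ, 0 < c ∧ ∃ m₀ : ℕ, ∀ m : ℕ, m₀ ≤ m →
        ∀ (d L : ℕ) (Φ : (Fin m → Fin m → ℝ) → Fin d → ℝ), ε * (m : ℝ) ^ 2 ≤ d →
          SolvesF ℝ m a b L d Φ → c * (((m : ℝ) ^ 2) ^ α) ≤ L)) := by
  refine ⟨fun 𝕜 _ σ n a b d L Φ h => lowerF σ h, ?_,
    fun a b ha hb ε hε d hd ℓ hℓ => exponent_linear ha hb hε d hd ℓ hℓ,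
    fun a b ha hb ε hε hε1 => uniform_iff ha hb hε hε1⟩
  intro 𝕜 _ σ a b ε δ τ D hε hδ H
  refine le_of_forall_pos_le_add fun η hη => ?_
  refine exponent_lower σ (a := a) (b := b) (ε := ε) hε hδ fun N => ?_
  have t1 := (tendsto_rpow_atTop (y := η) hη).comp (tendsto_natCast_atTop_atTop (R := ℝ))
  obtain ⟨n, ⟨d, L, Φ, h1, h2, h3⟩, h4, h5, h6⟩ := (H.and_eventually
    ((t1.eventually (eventually_ge_atTop D)).and
      ((eventually_ge_atTop N).and (eventually_ge_atTop 1)))).exists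
  simp only [Function.comp] at h4
  have hn0 : (0 : ℝ) < n := by exact_mod_cast h6
  refine ⟨n, h5, d, L, Φ, h1, h2, ?_⟩
  calc (L : ℝ) ≤ D * (n : ℝ) ^ τ := h3
    _ ≤ (n : ℝ) ^ η * (n : ℝ) ^ τ := by gcongr
    _ = (n : ℝ) ^ (τ + η) := by rw [← Real.rpow_add hn0]; congr 1; ring

end Pool.Agent.Results.MP_e72dc0_lc.FunctionsOfTheProduct
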