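import Pool.Agent.U28.FixedFactorCommon

set_option autoImplicit false

/-!
# Multiplying restricted matrices by a known matrix: a sharp threshold for the exponent

Circuits (`Circuit`, `Circuit.size`, `Circuit.nonscalarCount`) are defined in
`Pool.Agent.H522R2.Circuit`; `In`, `Computes`, `transCount`, `sizeFix` in `Pool.Agent.W956.FF.Defs`;
`cols` in `Pool.Agent.W956.FF.Final`; the explicit matrices `expMat` in
`Pool.Agent.W956.FF.Explicit`; `sizeMM`, `growth`, `Superlinear` in `Pool.Agent.W956.KF.Defs`; the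
exponent `omega` of matrix multiplication over `ℂ` in `Pool.Agent.H515R2.MMR.Rank`.
-/

namespace Pool.Agent.Results.MP_e72dc0_lc.KnownFactorThreshold

open Finset Module Pool.Agent.H522R2 Pool.Agent.W956.FF Pool.Agent.U28.FixedFactor
open Pool.Agent.W956.KF (growth sizeMM Superlinear)
open Pool.Agent.H515R2.MMR (omega)

/-- A circuit gets the entries of an `n × n` matrix `A` from a space `U` of matrices and the values
at `A` of `Q` arbitrary polynomials (hints); it has to compute the entries of `A B` at the positions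
in a set `S`, where `B` is one fixed matrix.

(1) If `U` is spanned by matrices with algebraic entries, the entries of `B` at the positions in `T`
are algebraically independent and `2 n ^ 2 + 3 q n + Q < dim U + |T| + |S|`, then `(q + 1) ^ ω` is at
most the number of multiplications by transcendental constants plus twice the number of nonscalar
multiplications.
(2) For every space `U` and every affine space `B₀ + ∑ z j • b j` of matrices there are integers `z`
such that for this `B` and all `S`, `Q` with `2 n ^ 2 + 3 q n + Q < dim U + |J| + |S|` the size is at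
least `(q + 1) ^ ω / 2`.
(3) If the matrices `B n` agree with the explicit matrices `expMat n` in `T n` and
`(2 + ε) n ^ 2 + Q n ≤ dim U n + |T n| + |S n|` then the least sizes have growth exponent `ω`, they
are at most `D n ^ τ` for infinitely many `n` only if `ω ≤ τ`, and they grow superlinearly if and
only if `S(MM)` does.
(4) The same with integral parameters as in (2), for arbitrary `U n`, `B₀ n`, `b n`, simultaneously
for all `Q` and `S`.
(5) The threshold `2 n ^ 2` is sharp: for `k ≤ n` there are a set `T` of `n k` and a set `S` of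
`n ^ 2 - n k` positions and a matrix `B` which agrees with `expMat n` in `T`, such that the entries of
`A B` in `S` are computed by a circuit of size `0` for all `A`; and `|S|` hints make the size `0`. -/
theorem result :
    (∀ (n Q q : ℕ) (U : Submodule ℂ (Matrix (Fin n) (Fin n) ℂ))
      (R : Set (Matrix (Fin n) (Fin n) ℂ)), (∀ M ∈ R, ∀ i j, IsAlgebraic ℚ (M i j)) →
      U = Submodule.span ℂ R → ∀ (B : Matrix (Fin n) (Fin n) ℂ) (T : Finset (Fin n × Fin n)),
      (AlgebraicIndependent ℚ fun t : T => B t.1.1 t.1.2) →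
      ∀ (S : Finset (Fin n × Fin n)) (C : Circuit ℂ (In n Q))
        (g : Fin Q → MvPolynomial (Fin n × Fin n) ℂ), Computes C g U B S →
        2 * n ^ 2 + 3 * q * n + Q < finrank ℂ U + T.card + S.card →
        ((q : ℝ) + 1) ^ omega ≤ transCount C + 2 * C.nonscalarCount) ∧
    (∀ (n : ℕ) (U : Submodule ℂ (Matrix (Fin n) (Fin n) ℂ)) (B₀ : Matrix (Fin n) (Fin n) ℂ)
      (J : Type) [Fintype J] (b : J → Matrix (Fin n) (Fin n) ℂ), LinearIndependent ℂ b →
      ∃ z : J → ℤ, ∀ (S : Finset (Fin n × Fin n)) (Q q : ℕ),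
        2 * n ^ 2 + 3 * q * n + Q < finrank ℂ U + Fintype.card J + S.card →
        ((q : ℝ) + 1) ^ omega ≤ 2 * sizeFix Q U (B₀ + ∑ j, ((z j : ℤ) : ℂ) • b j) S) ∧
    (∀ (ε : ℝ), 0 < ε → ∀ (Q : ℕ → ℕ)
      (U : ∀ n : ℕ, Submodule ℂ (Matrix (Fin n) (Fin n) ℂ))
      (R : ∀ n : ℕ, Set (Matrix (Fin n) (Fin n) ℂ))
      (B : ∀ n : ℕ, Matrix (Fin n) (Fin n) ℂ) (T S : ∀ n : ℕ, Finset (Fin n × Fin n)),
      (∀ n, ∀ M ∈ R n, ∀ i j, IsAlgebraic ℚ (M i j)) →
      (∀ n, U n = Submodule.span ℂ (R n)) →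
      (∀ n, ∀ t ∈ T n, B n t.1 t.2 = expMat n t.1 t.2) →
      (∀ n : ℕ, (2 + ε) * (n : ℝ) ^ 2 + Q n ≤
        (finrank ℂ (U n) + (T n).card + (S n).card : ℕ)) →
      growth (fun n => sizeFix (Q n) (U n) (B n) (S n)) = omega ∧
      (∀ D τ : ℝ, {n : ℕ | (sizeFix (Q n) (U n) (B n) (S n) : ℝ) ≤
        D * (n : ℝ) ^ τ}.Infinite → omega ≤ τ) ∧
      (Superlinear (sizeMM ℂ) ↔ Superlinear fun n => sizeFix (Q n) (U n) (B n) (S n))) ∧
    (∀ (J : ℕ → Type) [∀ n, Fintype (J n)]
      (U : ∀ n : ℕ, Submodule ℂ (Matrix (Fin n) (Fin n) ℂ))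
      (B₀ : ∀ n : ℕ, Matrix (Fin n) (Fin n) ℂ)
      (b : ∀ n : ℕ, J n → Matrix (Fin n) (Fin n) ℂ), (∀ n, LinearIndependent ℂ (b n)) →
      ∃ z : ∀ n : ℕ, J n → ℤ, ∀ (ε : ℝ), 0 < ε → ∀ (Q : ℕ → ℕ)
        (S : ∀ n : ℕ, Finset (Fin n × Fin n)),
        (∀ n : ℕ, (2 + ε) * (n : ℝ) ^ 2 + Q n ≤
          (finrank ℂ (U n) + Fintype.card (J n) + (S n).card : ℕ)) →
        growth (fun n =>
          sizeFix (Q n) (U n) (B₀ n + ∑ j, ((z n j : ℤ) : ℂ) • b n j) (S n)) = omega ∧
        (∀ D τ : ℝ, {n : ℕ |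
          (sizeFix (Q n) (U n) (B₀ n + ∑ j, ((z n j : ℤ) : ℂ) • b n j) (S n) : ℝ) ≤
            D * (n : ℝ) ^ τ}.Infinite → omega ≤ τ) ∧
        (Superlinear (sizeMM ℂ) ↔ Superlinear fun n =>
          sizeFix (Q n) (U n) (B₀ n + ∑ j, ((z n j : ℤ) : ℂ) • b n j) (S n))) ∧
    (∀ n k : ℕ, k ≤ n → ∃ (B : Matrix (Fin n) (Fin n) ℂ) (T S : Finset (Fin n × Fin n)),
      (∀ t ∈ T, B t.1 t.2 = expMat n t.1 t.2) ∧ T.card = n * k ∧ S.card = n ^ 2 - n * k ∧
      sizeFix 0 ⊤ B S = 0) ∧
    (∀ (n : ℕ) (U : Submodule ℂ (Matrix (Fin n) (Fin n) ℂ)) (B : Matrix (Fin n) (Fin n) ℂ)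
      (S : Finset (Fin n × Fin n)), sizeFix S.card U B S = 0) := by
  classical
  have hint : ∀ (n : ℕ) (U : Submodule ℂ (Matrix (Fin n) (Fin n) ℂ))
      (B₀ : Matrix (Fin n) (Fin n) ℂ)
      (J : Type) [Fintype J] (b : J → Matrix (Fin n) (Fin n) ℂ), LinearIndependent ℂ b →
      ∃ z : J → ℤ, ∀ (S : Finset (Fin n × Fin n)) (Q q : ℕ),
        2 * n ^ 2 + 3 * q * n + Q < finrank ℂ U + Fintype.card J + S.card →
        ((q : ℝ) + 1) ^ omega ≤ 2 * sizeFix Q U (B₀ + ∑ j, ((z j : ℤ) : ℂ) • b j) S := by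
    intro n U B₀ J _ b hb
    obtain ⟨z, hz⟩ := exists_int U B₀ b hb
    refine ⟨z, fun S Q q hq => ?_⟩
    obtain ⟨C, g, h1, h2⟩ := exists_sizeFix (Q := Q) U (B₀ + ∑ j, ((z j : ℤ) : ℂ) • b j) S
    rw [← h2]
    exact hz S Q q C g h1 hq
  refine ⟨?_, hint, ?_, ?_, ?_, fun n U B S => sizeFix_hints U B S⟩
  · intro n Q q U R hR hU B T hT S C g hC hdim
    exact part_one R hR hU T hT C g hC hdim
  · intro ε hε Q U R B T S hR hU hT hdim
    exact all_of_low hε hdim
      (fun n q hq => exp_part (R n) (hR n) (hU n) (T n) (hT n) hq)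
      (fun n => sizeFix_le_sizeMM _ _ _)
  · intro J _ U B₀ b hb
    choose z hz using fun n => hint n (U n) (B₀ n) (J n) (b n) (hb n)
    refine ⟨z, fun ε hε Q S hdim => ?_⟩
    exact all_of_low hε hdim (fun n q hq => hz n (S n) (Q n) q hq)
      (fun n => sizeFix_le_sizeMM _ _ _)
  · intro n k hk
    refine ⟨Matrix.of fun i j => if (i, j) ∈ cols n k then expMat n i j else 0, cols n k,
      univ \ cols n k, fun t ht => ?_, card_cols hk, ?_, ?_⟩
    · simp [ht]
    · rw [Finset.card_sdiff_of_subset (Finset.subset_univ _), card_cols hk, Finset.card_univ,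
        Fintype.card_prod, Fintype.card_fin, pow_two]
    · refine sizeFix_cols _ _ fun p hp => ?_
      simp [hp]

end Pool.Agent.Results.MP_e72dc0_lc.KnownFactorThreshold
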