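import Mathlib
import Pool.Agent.U514.MM.Univ

/-!
# Matrix multiplication: small arithmetic circuits contain every graph as a minor

Arithmetic circuits over an arbitrary field `F` (`Pool.Agent.H522R2.Circuit`, addition and
multiplication gates of fan-in two) which compute the `m ^ 2` entries of the product of two generic
`m × m` matrices, `n = m ^ 2`. The graph of the gates (`gateGraph`) has the gates as vertices and the
wires between gates as edges; the inputs are deleted, so a variable can be read everywhere.

`HasMinor G H d`: there are pairwise disjoint sets of vertices of `G`, one for each vertex of `H`,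
each with a centre from which it can be reached by walks of length at most `d` inside of the set,
and an edge of `G` between the sets of adjacent vertices of `H`. `Universal G M d`: this holds for
EVERY graph `H` with at most `M` vertices and at most `M` edges.

1. A circuit with `s` gates and `R` reads with `2 ^ 53 M (⌊log₂ s⌋ + 1) s R ^ 2 < n ^ 4` is universal
   for `M` edges, with radius about `√(s log s / M)`.
2. If the graph of the gates does not contain a graph with `M` edges as a minor (of any radius), then
   `n ^ 4 ≤ 2 ^ 55 M (⌊log₂ s⌋ + 1) s ^ 3`. So planar circuits, circuits of bounded genus and all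
   circuits without one fixed minor have at least `n ^ (4/3 - ε)` gates, in all characteristics. This
   is more than `n ^ 1.19`, so that the known fast algorithms have no such circuits.
3. Circuits with `n ^ (1 + γ)` gates contain every graph with at most `n ^ (1 - 3 γ - ε)` vertices and
   edges as a minor, with branch sets of radius `n ^ (2 γ + ε)`. In particular, if matrix
   multiplication has circuits of nearly linear size (`γ → 0`), then these contain every graph with
   `n ^ (1 - ε)` edges as a minor with branch sets of radius `n ^ ε`; as they have only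
   `n ^ (1 + o(1))` wires, this is optimal up to `n ^ ε`.

The rank argument for one block of gates (`piece`) is that of the starting result `Treewidth`, which
gives `m ^ 6 ≤ 320 (t + 1) R ^ 2` for treewidth `t` and so `n ^ (6/5)` for planar circuits. New are
the separator theorem for shallow minors `Pool.Agent.U514.MU.exists_sep` (Plotkin, Rao and Smith 1994
for complete graphs) and the division theorem `Pool.Agent.U514.MU.division`, both found for
`MP_885423_lc.MinorUniversality`, and their combination with the rank argument.
-/

set_option autoImplicit false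

namespace Pool.Agent.Results.MP_e72dc0_lc.MinorUniversality

open Pool.Agent.H522R2 Pool.Agent.H522R2.Circuit Pool.Agent.H522R3.TW
open Pool.Agent.U514.MU Pool.Agent.U514.MM

/-- The circuit computes the product of two generic `m × m` matrices: each of the `m ^ 2` polynomials
`c_{ij} = ∑ k, a_{ik} b_{kj}` is computed at some node. -/
def ComputesProduct {F : Type} [Field F] {m : ℕ} (C : Circuit F (Vars m)) : Prop :=
  ∀ i j : Fin m, ∃ k, C.poly k = ∑ l : Fin m, MvPolynomial.X (Sum.inl (i, l)) *
    MvPolynomial.X (Sum.inr (l, j))

/-- (1) Let `M ≥ 1` and let `C` be a circuit over a field `F` which computes the product of two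
generic `m × m` matrices. If `4 (⌊log₂ s⌋ + 1) s ≤ M d ^ 2` and
`2 ^ 53 M (⌊log₂ s⌋ + 1) s R ^ 2 < m ^ 8` for its number `s` of gates and its number `R` of reads
(pairs of a gate and a variable which is an input of the gate), then the graph of its gates contains
every graph `H` with at most `M` vertices and at most `M` edges as a minor with branch sets of radius
at most `d`.

(2) If the graph of its gates does not contain some graph `H` with at most `M ≥ 1` vertices and at
most `M` edges as a minor (of any radius), then `m ^ 8 ≤ 2 ^ 55 M (⌊log₂ s⌋ + 1) s ^ 3`.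

(3) Let `γ ≥ 0`, `ε > 0` and `3 γ + ε ≤ 1`. For all large `m`, all fields `F` and all circuits over
`F` with at most `n ^ (1 + γ)` gates, `n = m ^ 2`, which compute the product of two generic `m × m`
matrices, the graph of the gates contains every graph `H` with at most `n ^ (1 - 3 γ - ε)` vertices
and at most `n ^ (1 - 3 γ - ε)` edges as a minor with branch sets of radius at most
`n ^ (2 γ + ε)`. -/
theorem result :
    (∀ (F : Type) [Field F] (m M d : ℕ) (C : Circuit F (Vars m)), ComputesProduct C → 1 ≤ M →
      4 * (Nat.log 2 C.size + 1) * C.size ≤ M * d ^ 2 →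
      2 ^ 53 * (M * (Nat.log 2 C.size + 1) * C.size * readCount C ^ 2) < m ^ 8 →
      Universal (gateGraph C) M d) ∧
    (∀ (F : Type) [Field F] (m M : ℕ) (C : Circuit F (Vars m)), ComputesProduct C → 1 ≤ M →
      ∀ (W : Type) [Fintype W] (H : SimpleGraph W), Fintype.card W ≤ M → H.edgeSet.ncard ≤ M →
      (∀ d, ¬ HasMinor (gateGraph C) H d) →
      m ^ 8 ≤ 2 ^ 55 * (M * (Nat.log 2 C.size + 1) * C.size ^ 3)) ∧
    (∀ γ ε : ℝ, 0 ≤ γ → 0 < ε → 3 * γ + ε ≤ 1 → ∀ᶠ m : ℕ in Filter.atTop,
      ∀ (F : Type) [Field F] (C : Circuit F (Vars m)), ComputesProduct C →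
      (C.size : ℝ) ≤ ((m : ℝ) ^ 2) ^ (1 + γ) →
      ∀ (W : Type) [Fintype W] (H : SimpleGraph W),
        (Fintype.card W : ℝ) ≤ ((m : ℝ) ^ 2) ^ (1 - 3 * γ - ε) →
        (H.edgeSet.ncard : ℝ) ≤ ((m : ℝ) ^ 2) ^ (1 - 3 * γ - ε) →
        HasMinor (gateGraph C) H ⌊((m : ℝ) ^ 2) ^ (2 * γ + ε)⌋₊) :=
  ⟨fun _ _ _ _ _ C hC hM hd h => mm_universal C hC hM hd h,
    fun _ _ _ _ C hC hM W _ H hW hE hno => mm_minor_free C hC hM W H hW hE hno,
    fun γ ε hγ hε hγε => mm_minors γ ε hγ hε hγε⟩

end Pool.Agent.Results.MP_e72dc0_lc.MinorUniversality
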