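import Mathlib
import Pool.Agent.U514.TG.Final

/-!
# Planar arithmetic circuits of subcubic size for matrix multiplication

Arithmetic circuits over an arbitrary field `F` (`Pool.Agent.H522R2.Circuit`, addition and
multiplication gates of fan-in two) which compute the product of two generic `m × m` matrices,
`n = m ^ 2`. The inputs can be read everywhere, as often as one likes: the graph of the gates
(`gateGraph`) has the gates as vertices and the wires between gates as edges, the inputs are deleted.
The circuit is planar if this graph can be drawn in the plane without crossings.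

The direct algorithm gives planar circuits with `2 m ^ 3` gates. All known algorithms with fewer
multiplications need long and crossing wires: the natural layouts of Strassen-like algorithms with
`m ^ ω` gates have wires of length `m ^ (ω / 2)`, which is no gain over `m ^ 3` in the plane even for
`ω = 2`.

**Result.** There are planar circuits with `O (m ^ 2.996)` gates, over every field. They even have
their gates at different points of the lattice `ℤ ^ 2` and all their wires between gates join
neighbouring points, so the circuit is a systolic array in which every cell performs one operation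
(and is used once). The constant depends neither on the field nor on the dimension `d ≥ 2` of the
lattice. On the other hand planar circuits have at least `m ^ (8/3 - ε)` gates, and circuits of
neighbouring gates in `ℤ ^ d` at least `m ^ (2 + 2 / (d + 1)) / 48`. On a line (`d = 1`) the exponent
is `3`, if the cost of a circuit is the number of its gates plus the length of its wires; so the
plane is the least dimension where cancellation helps.

**The algorithm.** Block algorithms in the plane cost, for each product of two blocks, the square
root of the number of nonzero coefficients of the linear forms which are multiplied: a square of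
`t × t` partial results moves by `2 t` steps for each inner index, while `2 t` linear forms with
`t ^ 2` terms are read along rows of length `t ^ 2`. So one needs a bilinear algorithm for
`Q × Q` matrices with `∑_τ √(nnz τ) < Q ^ 3`. Trilinear aggregation (Pan 1972) is such an algorithm:
two products are computed together by products of forms with two terms, up to few long forms;
the ratio is `225 / 256` for `Q = 256`. It is applied on the `l` upper levels of the recursion only
(`l` about `(log₂ m) / 40`), so that the partial results of one superblock are near to each other.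
The layout is a grid of tiles (`TG.Par`), each a gadget of 20 gates which contains a planar crossing
`(x, y) ↦ (x + y - y, x + y - x)`.

The packages of the proof: `NETL`, `PEXP` (helper103), `TILE` (helper83), `LOCX` (helper750),
`LOCY` (helper358), `GRID` (helper429), `SUMO` (helper261), `ALG` (helper913), `CARD`, `PLAN`
(helper324), `BASEX` (helper810, after helper283), `ASYX` (helper894), `PLOW` (helper2), `POW`
(helper67).
-/

set_option autoImplicit false

namespace Pool.Agent.Results.MP_e72dc0_lc.PlanarCircuits

open Pool.Agent.H522R2 Pool.Agent.H522R2.Circuit Pool.Agent.H522R3.TW Pool.Agent.U514.MM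
open Pool.Agent.Helper770.Crossing
open Pool.Agent.W956.KF (growth omega)

/-- The circuit computes the product of two generic `m × m` matrices: each of the `m ^ 2` polynomials
`c_{ij} = ∑ l, a_{il} b_{lj}` is computed at some node. -/
def ComputesProduct {F : Type} [Field F] {m : ℕ} (C : Circuit F (Vars m)) : Prop :=
  ∀ i j : Fin m, ∃ k, C.poly k = ∑ l : Fin m, MvPolynomial.X (Sum.inl (i, l)) *
    MvPolynomial.X (Sum.inr (l, j))

/-- The gates are at different points of the lattice `ℤ ^ d`, and each wire between two gates joins
neighbouring points (`ℓ¹` distance one). -/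
def InGrid {F V : Type} {d : ℕ} (C : Circuit F V)
    (pos : {k : Fin C.nodes // IsGate C k} → Fin d → ℤ) : Prop :=
  Function.Injective pos ∧ ∀ h g : {k : Fin C.nodes // IsGate C k}, Feeds C h.1 g.1 →
    ∑ i, (pos h i - pos g i).natAbs = 1

/-- The graph has a drawing in the plane without crossings. -/
def IsPlanar {V : Type} (G : SimpleGraph V) : Prop := ∃ D : Drawing G, D.crossings = ∅

/-- The least number of gates of a circuit in the lattice `ℤ ^ d` for the product of two `m × m`
matrices. -/
noncomputable def gridMM (F : Type) [Field F] (d m : ℕ) : ℕ :=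
  sInf {c | ∃ (C : Circuit F (Vars m)) (pos : {k : Fin C.nodes // IsGate C k} → Fin d → ℤ),
    ComputesProduct C ∧ InGrid C pos ∧ C.size = c}

/-- The least number of gates of a planar circuit for the product of two `m × m` matrices. -/
noncomputable def planarMM (F : Type) [Field F] (m : ℕ) : ℕ :=
  sInf {c | ∃ C : Circuit F (Vars m), ComputesProduct C ∧ IsPlanar (gateGraph C) ∧ C.size = c}

theorem gridMM_eq (F : Type) [Field F] (d : ℕ) :
    gridMM F d = Pool.Agent.U514.TG.gridMM F d := by
  funext m
  unfold gridMM Pool.Agent.U514.TG.gridMM
  congr 1
  ext c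
  constructor
  · rintro ⟨C, pos, h1, ⟨h2, h3⟩, h4⟩
    exact ⟨C, pos, h1, h2, h3, h4⟩
  · rintro ⟨C, pos, h1, h2, h3, h4⟩
    exact ⟨C, pos, h1, ⟨h2, h3⟩, h4⟩

/-- (1) There is a constant `D` such that for every field `F`, every `d ≥ 2` and every `m` the product
of two generic `m × m` matrices over `F` is computed by a circuit with at most `D m ^ 2.996` gates
whose gates are at different points of `ℤ ^ d` and whose wires between gates join neighbouring
points. For `d = 2` every such circuit is planar.

(2) Every circuit for this product with gates at different points of `ℤ ^ d`, `d ≥ 1`, and wires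
between neighbouring points, with `s` gates and `R` reads, satisfies
`m ^ (2 d + 4) ≤ 2 ^ (4 d + 2) R (3 s) ^ d` and `m ^ (2 + 2 / (d + 1)) ≤ 48 s`.

(3) Every planar circuit for this product with `s` gates satisfies
`m ^ 8 ≤ 2 ^ 59 (⌊log₂ s⌋ + 1) s ^ 3`.

(4) For every field, the exponent of the least size of planar circuits is at least `8 / 3` and at
least `ω`, and at most `2.996`. For `d ≥ 2`, the exponent of the least size of circuits in `ℤ ^ d` is
at least `ω_d`, the exponent of the least number of gates plus length of the wires (for circuits
with wires of any length), and at most `2.996`; while `ω_1 = 3` and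
`max (ω, 2 + 2 / (d + 1)) ≤ ω_d` for all `d`. -/
theorem result :
    (∃ D : ℝ, ∀ (F : Type) [Field F] (d m : ℕ), 2 ≤ d →
      ∃ (C : Circuit F (Vars m)) (pos : {k : Fin C.nodes // IsGate C k} → Fin d → ℤ),
        ComputesProduct C ∧ InGrid C pos ∧ (C.size : ℝ) ≤ D * (m : ℝ) ^ (2.996 : ℝ)) ∧
    (∀ (F V : Type) (C : Circuit F V) (pos : {k : Fin C.nodes // IsGate C k} → Fin 2 → ℤ),
      InGrid C pos → IsPlanar (gateGraph C)) ∧
    (∀ (F : Type) [Field F] (d m : ℕ) (C : Circuit F (Vars m))
      (pos : {k : Fin C.nodes // IsGate C k} → Fin d → ℤ), 1 ≤ d → ComputesProduct C →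
      InGrid C pos → m ^ (2 * d + 4) ≤ 2 ^ (4 * d + 2) * (readCount C * (3 * C.size) ^ d) ∧
        (m : ℝ) ^ (2 + 2 / ((d : ℝ) + 1)) ≤ 48 * (C.size : ℝ)) ∧
    (∀ (F : Type) [Field F] (m : ℕ) (C : Circuit F (Vars m)), ComputesProduct C →
      IsPlanar (gateGraph C) → m ^ 8 ≤ 2 ^ 59 * ((Nat.log 2 C.size + 1) * C.size ^ 3)) ∧
    ∀ (F : Type) [Field F], (max (omega F) (8 / 3) ≤ growth (planarMM F) ∧
        growth (planarMM F) ≤ 2.996) ∧
      (∀ d : ℕ, 2 ≤ d → spaceExp F d ≤ growth (gridMM F d) ∧ growth (gridMM F d) ≤ 2.996) ∧
      spaceExp F 1 = 3 ∧ ∀ d : ℕ, 1 ≤ d → max (omega F) (2 + 2 / ((d : ℝ) + 1)) ≤ spaceExp F d := by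
  refine ⟨?_, fun F V C pos h => Pool.Agent.U514.TG.planar_of_grid C pos h.1 h.2,
    fun F _ d m C pos hd hC h => Pool.Agent.U514.TG.grid_lower C pos hd hC h.1 h.2,
    fun F _ m C hC h => Pool.Agent.U514.TG.planar_lower C hC h, fun F _ => ?_⟩
  · obtain ⟨D, hD⟩ := Pool.Agent.U514.TG.grid_circuits
    refine ⟨D, fun F _ d m hd => ?_⟩
    obtain ⟨C, pos, h1, h2, h3, h4⟩ := hD F d m hd
    exact ⟨C, pos, h1, ⟨h2, h3⟩, h4⟩
  · have h1 := Pool.Agent.U514.TG.planar_exponent F
    have h2 := Pool.Agent.U514.TG.exponents F
    have h3 := space_exponents F
    refine ⟨⟨h1.1, h1.2.trans (h2 2 le_rfl).2.2⟩, fun d hd => ?_, h3.2.1, fun d hd => (h3.1 d hd).1⟩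
    rw [gridMM_eq]
    exact (h2 d hd).2

end Pool.Agent.Results.MP_e72dc0_lc.PlanarCircuits
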